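import Pool.Agent.H7.CP.Targets

/-!
# Module HLN of MP_e37c09_lc (capturing): `(Th, gh)` is coherent at almost all points
-/

open Ordinal Cardinal Order Set
open scoped ZFSet

universe u

namespace Pool.Agent.H39.CP.HLN

open _root_.HD

private theorem ds_tr {Q : Ordinal.{u} → Ordinal.{u} → Prop}
    {t : Ordinal.{u} → Ordinal.{u} → Ordinal.{u}} (hQ : DR Q) (ht : Prf t)
    (c j : Ordinal.{u}) : DS {b | Q c (t j b)} := by
  have h1 : DO fun w : ℕ → Ordinal.{u} => ∃ y, y = t j (w 0) ∧ Q c y := by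
    refine DO.ex (R := fun y w => y = t j (w 0) ∧ Q c y) (DO.and ?_ ?_)
    · refine DO.sub (R := fun x w => w 0 = t x (w 1)) j ?_
      exact (ht.dfn.ren fun n => if n = 0 then 0 else if n = 1 then 2 else 1).congr
        fun w => by simp
    · exact DO.sub (R := fun x w => Q x (w 0)) c (DO.s2 hQ 0 1)
  refine h1.congr fun w => ?_
  constructor
  · intro h
    exact ⟨_, rfl, h⟩
  · rintro ⟨y, rfl, h⟩
    exact h

private theorem ds_Y {en : Ordinal.{u} → ZFSet.{u}} (hen : EN en)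
    {t : Ordinal.{u} → Ordinal.{u} → Ordinal.{u}} (ht : Prf t) (z i : Ordinal.{u}) :
    DS {p | ∃ j b, p = t j b ∧ j < i ∧ b ∈ E2 en z j} := by
  refine DO.ex (R := fun j w => ∃ b, w 0 = t j b ∧ j < i ∧ b ∈ E2 en z j) ?_
  refine DO.ex (R := fun b w => w 1 = t (w 0) b ∧ w 0 < i ∧ b ∈ E2 en z (w 0)) ?_
  refine DO.and ?_ (DO.and (DO.ltc 1 i) ?_)
  · exact (ht.dfn.ren fun n => if n = 0 then 1 else if n = 1 then 0 else 2).congr
      fun w => by simp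
  · refine DO.sub (R := fun c w => w 0 ∈ E2 en c (w 1)) z ?_
    exact ((All.ea en hen).2.1.ren fun n => if n = 0 then 1 else if n = 1 then 2 else 0).congr
      fun w => by simp

/-- the main step -/
private theorem core {en : Ordinal.{u} → ZFSet.{u}} (hen : EN en) {K : Cardinal.{u}}
    {Q : Ordinal.{u} → Ordinal.{u} → Prop} {f : Ordinal.{u} → Ordinal.{u}}
    {t : Ordinal.{u} → Ordinal.{u} → Ordinal.{u}} {X : Set Ordinal.{u}}
    {H : Ordinal.{u} → Set Ordinal.{u} → Prop} (hH : HR H)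
    (ht : Prf t) {ν : Ordinal.{u}} (hν : ν ≤ K.ord) (hcof : ℵ₀ < ν.cof)
    (hg : ∀ γ ∈ Th K X Q f t H, γ < ν → gh K X Q f t H γ < ν)
    (htt : ∀ a < ν, ∀ b < ν, t a b < ν)
    (hvq : ∀ Y : Set Ordinal.{u}, DS Y → ∃ ζ < ν, ∀ a < ν, (Q (f ζ) a ↔ a ∈ Y))
    (s : Ordinal.{u} → Ordinal.{u} → Ordinal.{u})
    (hs : ∀ z < K.ord, ∀ j < K.ord, ∀ b < K.ord, (Q (f (s z j)) b ↔ Q (f z) (t j b)))
    (hNC : ¬ Pos om ν {γ | ¬ (0 < γ ∧ ∀ x < γ, ∀ y < γ, s x y < γ)})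
    (hCo : CoH K Q f H ν) :
    LNh en t X H ν (Th K X Q f t H) (gh K X Q f t H) := by
  have hlim : IsSuccLimit ν := Ordinal.one_lt_cof_iff.1 (Cardinal.one_lt_aleph0.trans hcof)
  have hmem : ∀ γ ∈ Th K X Q f t H, γ < gh K X Q f t H γ ∧ gh K X Q f t H γ < K.ord ∧
      gh K X Q f t H γ ∈ X ∧ Gdh K Q f t H γ (gh K X Q f t H γ) := fun γ hγ =>
    csInf_mem (s := {ξ | γ < ξ ∧ ξ < K.ord ∧ ξ ∈ X ∧ Gdh K Q f t H γ ξ}) hγ
  refine ⟨⟨fun γ hγ hγν => ⟨(hmem γ hγ).1, hg γ hγ hγν, (hmem γ hγ).2.2.1⟩, fun z hP => ?_⟩,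
    fun z i hi hP => ?_⟩
  · -- good for all definable sets
    have hds : DS (E en z) := by
      have h1 := (All.ea en hen).1
      exact DO.sub (R := fun c w => w 0 ∈ E en c) z (DO.s2 (X := fun a b => a ∈ E en b) h1 1 0)
    obtain ⟨ζ, hζ, hζQ⟩ := hvq _ hds
    refine All.vb om ν (succ ζ) hlim (hlim.succ_lt hζ) (hP.mono ?_)
    rintro γ hγ ⟨hγT, h1, a, ha, h2⟩ -
    by_contra hle
    rw [mem_Iio, not_lt] at hle
    have hζγ : ζ < γ := (lt_succ ζ).trans_le hle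
    obtain ⟨h3, -, -, h5⟩ := hmem γ hγT
    have h4 := hg γ hγT hγ
    have h6 := h5.1 ζ hζγ (fun a ha => (hζQ _ (htt _ (ha.trans hγ) _ h4)).2 (h1 a ha)) a ha
    exact h2 ((hζQ _ (htt _ (ha.trans h4) _ h4)).1 h6)
  · -- coherence
    obtain ⟨ζ, hζ, hζQ⟩ := hvq _ (ds_Y hen ht z i)
    have hb : succ (max ζ i) < ν := hlim.succ_lt (max_lt hζ hi)
    refine null_union All.va hcof hNC (All.vb om ν (succ (max ζ i)) hlim hb) (hP.mono ?_)
    rintro γ hγ ⟨hγT, j, hj, h1⟩ -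
    by_contra hle
    rw [mem_union, not_or, mem_Iio, not_lt] at hle
    obtain ⟨h2, h3⟩ := hle
    have h2' : 0 < γ ∧ ∀ x < γ, ∀ y < γ, s x y < γ := by
      by_contra h
      exact h2 h
    have hζγ : ζ < γ := ((le_max_left ζ i).trans_lt (lt_succ _)).trans_le h3
    have hiγ : i < γ := ((le_max_right ζ i).trans_lt (lt_succ _)).trans_le h3
    have hjγ : j < γ := hj.trans hiγ
    have hz1 : s ζ j < γ := h2'.2 ζ hζγ j hjγ
    obtain ⟨h4, -, -, h5⟩ := hmem γ hγT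
    have h6 := hg γ hγT hγ
    have key : ∀ b < ν, (Q (f (s ζ j)) b ↔ b ∈ E2 en z j) := by
      intro b hb
      rw [hs ζ (hζ.trans_le hν) j ((hjγ.trans hγ).trans_le hν) b (hb.trans_le hν),
        hζQ _ (htt j (hjγ.trans hγ) b hb)]
      constructor
      · rintro ⟨j', b', h7, h8, h9⟩
        obtain ⟨rfl, rfl⟩ := ht.inj _ _ _ _ h7
        exact h9
      · intro h7
        exact ⟨j, b, rfl, hj, h7⟩
    apply h1
    have e1 : H ν {a | Q (f (s ζ j)) a} ↔ H ν (E2 en z j) := hH.ext ν _ _ key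
    have e2 : H (gh K X Q f t H γ) {a | Q (f (s ζ j)) a} ↔
        H (gh K X Q f t H γ) (E2 en z j) :=
      hH.ext _ _ _ fun a ha => key a (ha.trans h6)
    rw [← e1, ← e2, ← hCo (s ζ j) (hz1.trans hγ), ← h5.2 (s ζ j) hz1]

theorem X : T_HLN.{u} := by
  classical
  intro en hen K lam Q f t X H hK hK0 hVF ht hEQ hH
  have hex : ∀ z j : Ordinal.{u}, ∃ x < K.ord,
      ∀ b < K.ord, (Q (f x) b ↔ Q (f z) (t j b)) := by
    intro z j
    obtain ⟨β, hβ, h1⟩ := hEQ.enu _ (ds_tr hEQ.dr ht (f z) j)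
    obtain ⟨x, hx, rfl⟩ := hEQ.sj.onto β hβ
    exact ⟨x, hx, h1⟩
  choose s hsl hs using hex
  obtain ⟨C2, hC2, hC2'⟩ := All.vq K lam Q f hK hK0 hVF hEQ
  have hC3 := All.cb K hK hK0 t (ht.lt K hK0.le)
  have hgK : ∀ x < K.ord,
      (if x ∈ Th K X Q f t H then gh K X Q f t H x else 0) < K.ord := by
    intro x hx
    split_ifs with h
    · exact (csInf_mem (s := {ξ | x < ξ ∧ ξ < K.ord ∧ ξ ∈ X ∧ Gdh K Q f t H x ξ}) h).2.1
    · exact bot_le.trans_lt hx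
  have hC4 := All.ve K hK hK0 _ hgK
  have hC5 := All.cb K hK hK0 s (fun x _ y _ => hsl x y)
  have hNC : ¬ Pos om K.ord {γ | ¬ (0 < γ ∧ ∀ x < γ, ∀ y < γ, s x y < γ)} := by
    intro h
    obtain ⟨b, -, h1, h2, -⟩ := h _ hC5
    exact h2 h1
  obtain ⟨C1, hC1, hC1'⟩ := All.nrr K hK hK0 _ hNC
  have hKc : ℵ₀ < K.ord.cof := by rw [hK.cof_ord]; exact hK0
  refine ⟨_, All.ci _ _ _ hKc hC1 (All.ci _ _ _ hKc hC2 (All.ci _ _ _ hKc hC3 hC4)),
    fun ν hν hC hcof hCo => ?_⟩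
  by_cases hνK : ν = K.ord
  · refine core hen hH ht hν hcof (fun γ hγ hγν => ?_) ?_ (fun Y hY => ?_) s
      (fun z _ j _ b hb => hs z j b hb) (by rw [hνK]; exact hNC) hCo
    · rw [hνK]
      exact (csInf_mem (s := {ξ | γ < ξ ∧ ξ < K.ord ∧ ξ ∈ X ∧ Gdh K Q f t H γ ξ}) hγ).2.1
    · rw [hνK]
      exact ht.lt K hK0.le
    · obtain ⟨β, hβ, h1⟩ := hEQ.enu Y hY
      obtain ⟨ζ, hζ, rfl⟩ := hEQ.sj.onto β hβ
      rw [hνK]
      exact ⟨ζ, hζ, h1⟩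
  · have hlt : ν < K.ord := lt_of_le_of_ne hν hνK
    obtain ⟨g1, g2, g3, g4⟩ := hC.resolve_right hνK
    refine core hen hH ht hν hcof (fun γ hγ hγν => ?_) (fun a ha b hb => ?_)
      (hC2' ν g2 hlt) s (fun z _ j _ b hb => hs z j b hb) (hC1' ν g1 hlt hcof) hCo
    · have := g4.2 γ hγν
      rwa [if_pos hγ] at this
    · exact g3.2 a ha b hb

end Pool.Agent.H39.CP.HLN
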